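import Pool.Agent.W387.Q.Gap3
import Pool.Agent.H976R2.KConv

/-!
Self-avoiding polygons and walks on `ℤ²` (hyperscaling, `d = 2`): quasi-polynomial comparison of the
two counts, slow variation of `μ^(-n) A_n` and of `⟨|ω(n)|²⟩`, and reduction of the exponents `α`
and `ν` (along even `n`) to sparse sequences.
-/

namespace Pool.Agent.Results.MP_c0584e_pr.SparseCriterionLogThree

open Filter Topology

/-- `ω` is a self-avoiding walk with `n` steps on `ℤ²`, started at the origin. -/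
def IsSAW (n : ℕ) (ω : Fin (n + 1) → ℤ × ℤ) : Prop :=
  ω 0 = (0, 0) ∧
  (∀ i : Fin n, |(ω i.succ).1 - (ω i.castSucc).1| + |(ω i.succ).2 - (ω i.castSucc).2| = 1) ∧
  Function.Injective ω

/-- the number `C_n` of `n`-step self-avoiding walks on `ℤ²` started at the origin -/
noncomputable def C (n : ℕ) : ℕ := Nat.card {ω : Fin (n + 1) → ℤ × ℤ // IsSAW n ω}

/-- The mean-square displacement `⟨|ω(n)|²⟩` of the uniform `n`-step self-avoiding walk. -/
noncomputable def msd (n : ℕ) : ℝ :=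
  (∑ᶠ ω ∈ {ω | IsSAW n ω}, (((ω (Fin.last n)).1 : ℝ) ^ 2 + ((ω (Fin.last n)).2 : ℝ) ^ 2)) /
    ({ω | IsSAW n ω}.ncard : ℝ)

/-- `f` is a self-avoiding polygon of length `n` as a rooted, oriented path: `f(0) = 0`, the points
`f(0), ..., f(n-1)` are distinct, consecutive points (cyclically) are neighbours. -/
def IsPolygon (n : ℕ) (f : ZMod n → ℤ × ℤ) : Prop :=
  f 0 = 0 ∧ Function.Injective f ∧
    ∀ i : ZMod n, |(f (i + 1)).1 - (f i).1| + |(f (i + 1)).2 - (f i).2| = 1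

/-- the number `A_n` of rooted, oriented self-avoiding polygons of length `n` -/
noncomputable def A (n : ℕ) : ℕ := Nat.card {f : ZMod n → ℤ × ℤ // IsPolygon n f}

lemma C_eq' (n : ℕ) : (C n : ℝ) = ((Pool.Agent.H976R2.SW n).card : ℝ) := by
  rw [show C n = H981.C n from rfl, Pool.Agent.H739K.SWR.card_eq_cr', H981.cr'_eq]

open Pool.Agent.H976R2 in
lemma msd_eq (n : ℕ) : msd n = mom sq n / ((SW n).card : ℝ) := by
  unfold msd mom
  have h1 : {ω | IsSAW n ω} = {ω | Pool.Agent.H976R2.IsSAW n ω} := rfl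
  rw [h1, finsum_saw, ncard_saw]
  congr 1
  refine Finset.sum_congr rfl (fun w hw => ?_)
  simp only [pth_last hw]; rfl

lemma A_eq (N : ℕ) (hN : 2 ≤ N) : (A (2 * N) : ℝ) = Pool.Agent.H739K.HYP.a N := by
  have h := (Pool.Agent.H739K.CONV_proof N hN).2.1
  unfold Pool.Agent.H739K.HYP.a
  rw [← h, ← Nat.card_coe_set_eq]
  rfl

lemma msd_eq' (N : ℕ) : msd (2 * N) = Pool.Agent.H739K.HYP.R N := by
  rw [msd_eq]; rfl

/-- **Theorem (`d = 2`).** Let `μ = lim C_n^(1/n)`. (1) There is `K` with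
`exp(-K (log n)^3) C_n ≤ A_n ≤ C_{n-1}` for all even `n ≥ 4`. (2) There is `K` such that for all
`N ≥ 2` both `A_{2N+2} / (μ² A_{2N})` and `⟨|ω(2N+2)|²⟩ / ⟨|ω(2N)|²⟩` differ from `1` by at most
`K ((log N)^3 / N)^(1/2)`. (3) Let `s_k → ∞` with `(s_{k+1} - s_k) (log s_k / s_k)^(1/2) → 0`. If
`log(μ^(-n) A_n) / log n → α - 2` along `n = 2 s_k`, then along all even `n`; if
`log ⟨|ω(n)|²⟩ / log n → 2 ν` along `n = 2 s_k`, then along all even `n`. -/
theorem result : ∃ μ : ℝ, 0 < μ ∧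
    Tendsto (fun n : ℕ => (C n : ℝ) ^ (1 / (n : ℝ))) atTop (𝓝 μ) ∧
    (∃ K : ℝ, ∀ N : ℕ, 2 ≤ N →
      Real.exp (-(K * Real.log (2 * N) ^ 3)) * C (2 * N) ≤ A (2 * N) ∧
      A (2 * N) ≤ C (2 * N - 1)) ∧
    (∃ K : ℝ, ∀ N : ℕ, 2 ≤ N →
      |(A (2 * (N + 1)) : ℝ) / (μ ^ 2 * A (2 * N)) - 1| ≤ K * Real.sqrt (Real.log N ^ 3 / N) ∧
      |msd (2 * (N + 1)) / msd (2 * N) - 1| ≤ K * Real.sqrt (Real.log N ^ 3 / N)) ∧
    (∀ (s : ℕ → ℕ) (α ν : ℝ), Tendsto s atTop atTop →
      Tendsto (fun k => ((s (k + 1) : ℝ) - s k) * Real.sqrt (Real.log (s k) / s k))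
        atTop (𝓝 0) →
      (Tendsto (fun k => Real.log ((A (2 * s k) : ℝ) / μ ^ (2 * s k)) / Real.log (2 * s k))
          atTop (𝓝 (α - 2)) →
        Tendsto (fun N : ℕ => Real.log ((A (2 * N) : ℝ) / μ ^ (2 * N)) / Real.log (2 * N))
          atTop (𝓝 (α - 2))) ∧
      (Tendsto (fun k => Real.log (msd (2 * s k)) / Real.log (2 * s k)) atTop (𝓝 (2 * ν)) →
        Tendsto (fun N : ℕ => Real.log (msd (2 * N)) / Real.log (2 * N)) atTop (𝓝 (2 * ν)))) := by
  have hmu : 0 < H981.mu := H981.mu_pos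
  have hmu2 : 2.43 ≤ H981.mu := Pool.Agent.H739K.mu_ge
  obtain ⟨C1, hC1⟩ := Pool.Agent.W387.Q.HYP.ra
  obtain ⟨C2, hC2⟩ := Pool.Agent.W387.Q.HYP.rR
  have hra : ∀ N : ℕ, 2 ≤ N →
      |(A (2 * (N + 1)) : ℝ) / (H981.mu ^ 2 * A (2 * N)) - 1| ≤ C1 * Pool.Agent.W387.Q.rN N := by
    intro N hN
    rw [A_eq N hN, A_eq (N + 1) (by omega)]
    exact hC1 N hN
  have hrm : ∀ N : ℕ, 2 ≤ N →
      |msd (2 * (N + 1)) / msd (2 * N) - 1| ≤ C2 * Pool.Agent.W387.Q.rN N := by
    intro N hN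
    rw [msd_eq', msd_eq']
    exact hC2 N hN
  refine ⟨H981.mu, hmu, ?_, ?_, ?_, ?_⟩
  · have h := H981.tendsto_root
    simp only [H981.cr'_eq] at h
    exact h
  · obtain ⟨-, K, hK, h⟩ := Pool.Agent.W387.Q.bnd
    obtain ⟨K1, hK1, hup⟩ := Pool.Agent.W387.Q.ex3.up
    refine ⟨K + K1 + Real.log H981.mu, fun N hN => ⟨?_, ?_⟩⟩
    · have hNr : (2 : ℝ) ≤ N := by exact_mod_cast hN
      have h1 := (h (2 * N - 1) (by omega) (by omega)).1
      have h2 := hup (2 * N) (by omega)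
      have hL1 : 1 ≤ Real.log (2 * (N : ℝ)) := by
        rw [Real.le_log_iff_exp_le (by linarith)]
        have := Real.exp_one_lt_d9
        linarith
      have hlmu : 0 ≤ Real.log H981.mu := Real.log_nonneg (by linarith)
      have hlog : Real.log ((2 * N - 1 : ℕ) : ℝ) ≤ Real.log (2 * (N : ℝ)) := by
        apply Real.log_le_log
        · exact_mod_cast (by omega : 0 < 2 * N - 1)
        · have : ((2 * N - 1 : ℕ) : ℝ) ≤ ((2 * N : ℕ) : ℝ) := by exact_mod_cast (by omega)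
          push_cast at this ⊢
          exact this
      have hlog0 : 0 ≤ Real.log ((2 * N - 1 : ℕ) : ℝ) := Real.log_natCast_nonneg _
      have hlog9 : (Real.log ((2 * N - 1 : ℕ) : ℝ)) ^ 3 ≤ Real.log (2 * (N : ℝ)) ^ 3 :=
        pow_le_pow_left₀ hlog0 hlog 3
      have hL9 : (1 : ℝ) ≤ Real.log (2 * (N : ℝ)) ^ 3 := one_le_pow₀ hL1
      push_cast at h2
      rw [A_eq N hN, C_eq', Pool.Agent.H739K.SWR.card_eq_cr']
      unfold Pool.Agent.H739K.HYP.a
      refine le_trans ?_ h1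
      have e1 : H981.mu ^ (2 * N) = H981.mu ^ (2 * N - 1) * Real.exp (Real.log H981.mu) := by
        rw [Real.exp_log hmu, ← pow_succ]
        congr 1
        omega
      calc Real.exp (-((K + K1 + Real.log H981.mu) * Real.log (2 * (N : ℝ)) ^ 3)) * H981.cr' (2 * N)
          ≤ Real.exp (-((K + K1 + Real.log H981.mu) * Real.log (2 * (N : ℝ)) ^ 3)) *
            (H981.mu ^ (2 * N - 1) * Real.exp (Real.log H981.mu) *
              Real.exp (K1 * Real.log (2 * (N : ℝ)) ^ 3)) := by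
            rw [← e1]
            exact mul_le_mul_of_nonneg_left h2 (Real.exp_pos _).le
        _ = H981.mu ^ (2 * N - 1) * (Real.exp (-((K + K1 + Real.log H981.mu) *
              Real.log (2 * (N : ℝ)) ^ 3)) * Real.exp (Real.log H981.mu) *
              Real.exp (K1 * Real.log (2 * (N : ℝ)) ^ 3)) := by ring
        _ ≤ H981.mu ^ (2 * N - 1) * Real.exp (-(K * Real.log ((2 * N - 1 : ℕ) : ℝ) ^ 3)) := by
            apply mul_le_mul_of_nonneg_left _ (by positivity)
            rw [← Real.exp_add, ← Real.exp_add]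
            apply Real.exp_le_exp.mpr
            nlinarith [mul_le_mul_of_nonneg_left hlog9 hK, mul_le_mul_of_nonneg_left hL9 hlmu]
    · have h3 : (A (2 * N) : ℝ) ≤ (C (2 * N - 1) : ℝ) := by
        rw [A_eq N hN, C_eq']
        unfold Pool.Agent.H739K.HYP.a Pool.Agent.H739K.KP
        exact_mod_cast Finset.card_filter_le _ _
      exact_mod_cast h3
  · refine ⟨max C1 C2, fun N hN => ⟨(hra N hN).trans ?_, (hrm N hN).trans ?_⟩⟩
    · exact mul_le_mul_of_nonneg_right (le_max_left _ _) (Pool.Agent.W387.Q.rN_nonneg N)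
    · exact mul_le_mul_of_nonneg_right (le_max_right _ _) (Pool.Agent.W387.Q.rN_nonneg N)
  · intro s α ν hs hgap
    have hgap' := Pool.Agent.W387.Q.gap3 s hs hgap
    have hw : ∀ n : ℕ, 2 ≤ n → |Real.log (2 * (n : ℝ)) - Real.log n| ≤ 1 := by
      intro n hn
      have hn' : (2 : ℝ) ≤ n := by exact_mod_cast hn
      rw [Real.log_mul (by norm_num) (by positivity), add_sub_cancel_right,
        abs_of_nonneg (Real.log_nonneg (by norm_num))]
      have := Real.log_two_lt_d9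
      linarith
    refine ⟨fun hc => ?_, fun hc => ?_⟩
    · refine Pool.Agent.W387.Q.exp_gen (fun N => (A (2 * N) : ℝ) / H981.mu ^ (2 * N)) C1 ?_ ?_
        (fun n => Real.log (2 * (n : ℝ))) hw s hs hgap' (α - 2) hc
      · intro N hN
        rw [A_eq N hN]
        have := Pool.Agent.H739K.HYP.a_pos hN
        positivity
      · intro N hN
        have h := hra N hN
        have e : (A (2 * (N + 1)) : ℝ) / (H981.mu ^ 2 * A (2 * N)) =
            (A (2 * (N + 1)) : ℝ) / H981.mu ^ (2 * (N + 1)) / ((A (2 * N) : ℝ) / H981.mu ^ (2 * N)) := by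
          have h0 := Pool.Agent.H739K.HYP.a_pos hN
          rw [← A_eq N hN] at h0
          rw [show 2 * (N + 1) = 2 * N + 2 by ring, pow_add]
          field_simp
        rw [e] at h
        exact h
    · refine Pool.Agent.W387.Q.exp_gen (fun N => msd (2 * N)) C2 ?_ hrm
        (fun n => Real.log (2 * (n : ℝ))) hw s hs hgap' (2 * ν) hc
      intro N hN
      rw [msd_eq']
      exact Pool.Agent.H739K.HYP.R_pos hN

end Pool.Agent.Results.MP_c0584e_pr.SparseCriterionLogThree
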